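import Mathlib

/-!
# The integers of `ℚ(√5)` form a principal ideal domain (helper382)
-/

set_option autoImplicit false

namespace Pool.Agent.Y382.Gold

open NumberField Module

variable {K : Type} [Field K] [NumberField K]

theorem sq_ne (q : ℚ) : q ^ 2 ≠ 5 := by
  intro h
  have h1 : Irrational (√((5 : ℕ) : ℝ)) := Nat.Prime.irrational_sqrt (by norm_num)
  apply h1
  refine ⟨|q|, ?_⟩
  have h2 : (q : ℝ) ^ 2 = ((5 : ℕ) : ℝ) := by
    have : ((q ^ 2 : ℚ) : ℝ) = ((5 : ℚ) : ℝ) := by rw [h]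
    push_cast at this ⊢
    linarith
  rw [← h2, Real.sqrt_sq_eq_abs]
  push_cast
  rfl

theorem indep {s : K} (hs : s ^ 2 = 5) : LinearIndependent ℚ ![(1 : K), s] := by
  rw [LinearIndependent.pair_iff]
  intro a b h
  rw [Algebra.smul_def, Algebra.smul_def, mul_one, eq_ratCast, eq_ratCast] at h
  by_cases hb : b = 0
  · rw [hb] at h
    simp at h
    exact ⟨h, hb⟩
  · exfalso
    apply sq_ne (a / b)
    have hb' : (b : K) ≠ 0 := by exact_mod_cast hb
    have h1 : (a : K) = -(b * s) := by linear_combination h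
    have h2 : (a : K) ^ 2 = 5 * (b : K) ^ 2 := by
      rw [h1]
      linear_combination (b : K) ^ 2 * hs
    have h3 : a ^ 2 = 5 * b ^ 2 := by exact_mod_cast h2
    rw [div_pow, h3]
    field_simp

theorem exists_basis (hK : finrank ℚ K = 2) {s : K} (hs : s ^ 2 = 5) :
    ∃ b : Basis (Fin 2) ℚ K, b 0 = 1 ∧ b 1 = s := by
  have hcard : Fintype.card (Fin 2) = finrank ℚ K := by rw [hK]; rfl
  refine ⟨basisOfLinearIndependentOfCardEqFinrank (indep hs) hcard, ?_, ?_⟩
  · rw [coe_basisOfLinearIndependentOfCardEqFinrank]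
    rfl
  · rw [coe_basisOfLinearIndependentOfCardEqFinrank]
    rfl

theorem exists_coord (hK : finrank ℚ K = 2) {s : K} (hs : s ^ 2 = 5) (x : K) :
    ∃ u v : ℚ, x = u + v * s := by
  obtain ⟨b, h0, h1⟩ := exists_basis hK hs
  refine ⟨b.repr x 0, b.repr x 1, ?_⟩
  have h := b.sum_repr x
  rw [Fin.sum_univ_two, h0, h1, Algebra.smul_def, Algebra.smul_def, mul_one, eq_ratCast,
    eq_ratCast] at h
  exact h.symm

theorem norm_form (hK : finrank ℚ K = 2) {s : K} (hs : s ^ 2 = 5) (u v : ℚ) :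
    Algebra.norm ℚ ((u : K) + v * s) = u ^ 2 - 5 * v ^ 2 := by
  obtain ⟨b, h0, h1⟩ := exists_basis hK hs
  have e0 : ((u : K) + v * s) * b 0 = u • b 0 + v • b 1 := by
    rw [h0, h1, Algebra.smul_def, Algebra.smul_def, eq_ratCast, eq_ratCast]
    ring
  have e1 : ((u : K) + v * s) * b 1 = (5 * v) • b 0 + u • b 1 := by
    rw [h0, h1, Algebra.smul_def, Algebra.smul_def, eq_ratCast, eq_ratCast]
    push_cast
    linear_combination (v : K) * hs
  rw [Algebra.norm_eq_matrix_det b, Matrix.det_fin_two]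
  simp only [Algebra.leftMulMatrix_eq_repr_mul, e0, e1, map_add, map_smul, Basis.repr_self,
    Finsupp.add_apply, Finsupp.smul_apply, Finsupp.single_apply, smul_eq_mul]
  norm_num
  ring

theorem phi_int {s : K} (hs : s ^ 2 = 5) : IsIntegral ℤ ((1 + s) / 2) := by
  refine ⟨Polynomial.X ^ 2 - Polynomial.X - 1, ?_, ?_⟩
  · monicity!
  · simp only [Polynomial.eval₂_sub, Polynomial.eval₂_pow, Polynomial.eval₂_X, Polynomial.eval₂_one]
    field_simp
    linear_combination hs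

theorem euclid (hK : finrank ℚ K = 2) {s : K} (hs : s ^ 2 = 5) (x : K) :
    ∃ q : 𝓞 K, |Algebra.norm ℚ (x - q)| < 1 := by
  obtain ⟨u, v, rfl⟩ := exists_coord hK hs x
  obtain ⟨n, hn⟩ : ∃ n : ℤ, n = round (2 * v) := ⟨_, rfl⟩
  obtain ⟨m, hm⟩ : ∃ m : ℤ, m = round (u - n / 2) := ⟨_, rfl⟩
  have h1 : |2 * v - n| ≤ 1 / 2 := by rw [hn]; exact abs_sub_round _
  have h2 : |u - n / 2 - m| ≤ 1 / 2 := by rw [hm]; exact abs_sub_round _
  have hq : IsIntegral ℤ ((m : K) + n * ((1 + s) / 2)) := by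
    refine IsIntegral.add (isIntegral_algebraMap (R := ℤ) (x := m)) ?_
    exact IsIntegral.mul (isIntegral_algebraMap (R := ℤ) (x := n)) (phi_int hs)
  obtain ⟨q, hqe⟩ : ∃ q : 𝓞 K, (q : K) = (m : K) + n * ((1 + s) / 2) := ⟨⟨_, hq⟩, rfl⟩
  refine ⟨q, ?_⟩
  have e : (u : K) + v * s - (q : K) =
      ((u - n / 2 - m : ℚ) : K) + ((v - n / 2 : ℚ) : K) * s := by
    rw [hqe]
    push_cast
    ring
  rw [e, norm_form hK hs]
  rw [abs_le] at h1 h2
  rw [abs_lt]
  constructor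
  · nlinarith
  · nlinarith

theorem pid (hK : finrank ℚ K = 2) {s : K} (hs : s ^ 2 = 5) : IsPrincipalIdealRing (𝓞 K) := by
  refine ⟨fun I => ?_⟩
  by_cases hI : I = ⊥
  · rw [hI]
    exact bot_isPrincipal
  obtain ⟨b0, hb0, hb00⟩ := Submodule.exists_mem_ne_zero_of_ne_bot hI
  obtain ⟨P, hP⟩ : ∃ P : ℕ → Prop, P = fun n => ∃ b ∈ I, b ≠ 0 ∧ (Algebra.norm ℤ b).natAbs = n :=
    ⟨_, rfl⟩
  classical
  have hex : ∃ n, P n := ⟨_, by rw [hP]; exact ⟨b0, hb0, hb00, rfl⟩⟩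
  have hmin := Nat.find_spec hex
  have hmin' : ∀ m, P m → Nat.find hex ≤ m := fun m hm => Nat.find_min' hex hm
  obtain ⟨N, hN⟩ : ∃ N, N = Nat.find hex := ⟨_, rfl⟩
  rw [← hN] at hmin hmin'
  rw [hP] at hmin hmin'
  obtain ⟨b, hb, hbne, hbN⟩ := hmin
  refine ⟨⟨b, ?_⟩⟩
  apply le_antisymm
  · intro a ha
    have hbK : (b : K) ≠ 0 := fun h => hbne (RingOfIntegers.coe_eq_zero_iff.1 h)
    obtain ⟨q, hq⟩ := euclid hK hs ((a : K) / b)
    have hr : a - q * b ∈ I := I.sub_mem ha (I.mul_mem_left _ hb)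
    by_cases hr0 : a - q * b = 0
    · rw [Submodule.mem_span_singleton]
      exact ⟨q, by rw [smul_eq_mul]; linear_combination -hr0⟩
    · exfalso
      have h1 := hmin' _ ⟨a - q * b, hr, hr0, rfl⟩
      have h2 : Algebra.norm ℚ (((a - q * b : 𝓞 K)) : K) =
          Algebra.norm ℚ ((a : K) / b - q) * Algebra.norm ℚ (b : K) := by
        rw [← map_mul]
        congr 1
        push_cast
        field_simp
      rw [← Algebra.coe_norm_int, ← Algebra.coe_norm_int] at h2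
      have h3 : |((Algebra.norm ℤ (a - q * b) : ℤ) : ℚ)| < |((Algebra.norm ℤ b : ℤ) : ℚ)| := by
        rw [h2, abs_mul]
        have h4 : 0 < |((Algebra.norm ℤ b : ℤ) : ℚ)| := by
          rw [abs_pos]
          have : Algebra.norm ℤ b ≠ 0 := Algebra.norm_ne_zero_iff.2 hbne
          exact_mod_cast this
        nlinarith
      have h4 : |Algebra.norm ℤ (a - q * b)| < |Algebra.norm ℤ b| := by exact_mod_cast h3
      rw [Int.abs_eq_natAbs, Int.abs_eq_natAbs] at h4
      omega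
  · rw [Submodule.span_singleton_le_iff_mem]
    exact hb

/-- every element is a quotient of coprime integers -/
theorem exists_coprime (hK : finrank ℚ K = 2) {s : K} (hs : s ^ 2 = 5) (x : K) :
    ∃ a b : 𝓞 K, b ≠ 0 ∧ IsCoprime a b ∧ x = (a : K) / b := by
  have := pid hK hs
  obtain ⟨a, b, h1, h2⟩ := IsFractionRing.exists_reduced_fraction (A := 𝓞 K) x
  refine ⟨a, b, nonZeroDivisors.coe_ne_zero b, isRelPrime_iff_isCoprime.1 h1, ?_⟩
  rw [← h2, IsFractionRing.mk'_eq_div]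

end Pool.Agent.Y382.Gold
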