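import Mathlib

/-!
# The functionals of a nondegenerate critical point in four variables (helper382)
-/

set_option autoImplicit false

namespace Pool.Agent.Y382.N4M2

open MvPolynomial Finset

abbrev R : Type := MvPolynomial (Fin 4) ℂ

/-- the polynomials of order at least `a` -/
noncomputable def Hi (a : ℕ) : Ideal R := idealOfVars (Fin 4) ℂ ^ a

theorem mem_Hi {a : ℕ} {g : R} : g ∈ Hi a ↔ ∀ d, Finsupp.degree d < a → coeff d g = 0 :=
  mem_pow_idealOfVars_iff' a g

theorem Hi_zero (g : R) : g ∈ Hi 0 := by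
  rw [mem_Hi]
  intro d hd
  exact absurd hd (Nat.not_lt_zero _)

theorem Hi_mono {a b : ℕ} (h : a ≤ b) {g : R} (hg : g ∈ Hi b) : g ∈ Hi a :=
  Ideal.pow_le_pow_right h hg

theorem Hi_mul {a b : ℕ} {f g : R} (hf : f ∈ Hi a) (hg : g ∈ Hi b) : f * g ∈ Hi (a + b) := by
  unfold Hi
  rw [pow_add]
  exact Ideal.mul_mem_mul hf hg

theorem Hi_pow {a : ℕ} {f : R} (hf : f ∈ Hi a) (n : ℕ) : f ^ n ∈ Hi (a * n) := by
  unfold Hi
  rw [pow_mul]
  exact Ideal.pow_mem_pow hf n

theorem eps_of_Hi {g : R} (hg : g ∈ Hi 1) : constantCoeff g = 0 := by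
  rw [mem_Hi] at hg
  exact hg 0 (by simp)

theorem Hi_pderiv {a : ℕ} {g : R} (hg : g ∈ Hi (a + 1)) (i : Fin 4) : pderiv i g ∈ Hi a := by
  rw [mem_Hi] at hg ⊢
  intro d hd
  rw [coeff_pderiv, hg, zero_mul]
  rw [map_add, Finsupp.degree_single]
  omega

/-- a polynomial is of high order if its derivatives are -/
theorem Hi_of_pderiv {a : ℕ} {g : R} (h0 : constantCoeff g = 0)
    (h : ∀ i, pderiv i g ∈ Hi a) : g ∈ Hi (a + 1) := by
  rw [mem_Hi]
  intro d hd
  by_cases hd0 : d = 0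
  · rw [hd0]
    exact h0
  · obtain ⟨i, hi⟩ : ∃ i, d i ≠ 0 := by
      by_contra hcon
      push Not at hcon
      exact hd0 (Finsupp.ext hcon)
    have hle : Finsupp.single i 1 ≤ d := by
      rw [Finsupp.single_le_iff]
      omega
    obtain ⟨m, hm⟩ : ∃ m, m = d - Finsupp.single i 1 := ⟨_, rfl⟩
    have hmd : m + Finsupp.single i 1 = d := by rw [hm]; exact tsub_add_cancel_of_le hle
    have h1 := h i
    rw [mem_Hi] at h1
    have h2 := h1 m (by
      rw [← hmd, map_add, Finsupp.degree_single] at hd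
      omega)
    rw [coeff_pderiv, hmd] at h2
    rcases mul_eq_zero.1 h2 with h3 | h3
    · exact h3
    · exfalso
      have : ((m i : ℂ) + 1) ≠ 0 := by exact_mod_cast Nat.succ_ne_zero (m i)
      exact this h3

theorem pderiv_comm (i k : Fin 4) (g : R) : pderiv i (pderiv k g) = pderiv k (pderiv i g) := by
  ext d
  simp only [coeff_pderiv]
  by_cases h : i = k
  · rw [h]
  · have e1 : (d + Finsupp.single i 1 : Fin 4 →₀ ℕ) k = d k := by
      rw [Finsupp.add_apply, Finsupp.single_apply, if_neg h, add_zero]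
    have e2 : (d + Finsupp.single k 1 : Fin 4 →₀ ℕ) i = d i := by
      rw [Finsupp.add_apply, Finsupp.single_apply, if_neg (Ne.symm h), add_zero]
    rw [e1, e2, add_right_comm]
    ring

/-! ### the operators -/

/-- the second order operator with coefficients `B` -/
noncomputable def Del (B : Matrix (Fin 4) (Fin 4) ℂ) : R →ₗ[ℂ] R :=
  ∑ a, ∑ b, (B a b) • ((pderiv a).toLinearMap ∘ₗ (pderiv b).toLinearMap)

theorem Del_apply (B : Matrix (Fin 4) (Fin 4) ℂ) (g : R) :
    Del B g = ∑ a, ∑ b, (B a b) • pderiv a (pderiv b g) := by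
  unfold Del
  simp only [LinearMap.sum_apply, LinearMap.smul_apply, LinearMap.comp_apply]
  rfl

theorem Del_pderiv (B : Matrix (Fin 4) (Fin 4) ℂ) (i : Fin 4) (g : R) :
    Del B (pderiv i g) = pderiv i (Del B g) := by
  rw [Del_apply, Del_apply, map_sum]
  refine sum_congr rfl fun a _ => ?_
  rw [map_sum]
  refine sum_congr rfl fun b _ => ?_
  rw [Derivation.map_smul, pderiv_comm b i g, pderiv_comm a i]

/-- the Euler operator -/
noncomputable def Eu : R →ₗ[ℂ] R :=
  ∑ k, (LinearMap.mulLeft ℂ (X k : R)) ∘ₗ (pderiv k).toLinearMap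

theorem Eu_apply (g : R) : Eu g = ∑ k, X k * pderiv k g := by
  unfold Eu
  simp only [LinearMap.sum_apply, LinearMap.comp_apply, LinearMap.mulLeft_apply]
  rfl

theorem pderiv_Eu (i : Fin 4) (g : R) : pderiv i (Eu g) = pderiv i g + Eu (pderiv i g) := by
  rw [Eu_apply, Eu_apply, map_sum]
  have h1 : ∀ k, pderiv i (X k * pderiv k g) =
      (if k = i then pderiv k g else 0) + X k * pderiv k (pderiv i g) := by
    intro k
    rw [pderiv_mul, pderiv_X, pderiv_comm i k]
    by_cases h : k = i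
    · rw [h]; simp
    · rw [if_neg h, Pi.single_eq_of_ne h]; simp
  rw [sum_congr rfl fun k _ => h1 k, sum_add_distrib, sum_ite_eq' univ i]
  simp

theorem Del_Eu (B : Matrix (Fin 4) (Fin 4) ℂ) (g : R) : Del B (Eu g) = Eu (Del B g) + 2 • Del B g := by
  rw [Del_apply, Del_apply, map_sum, smul_sum, ← sum_add_distrib]
  refine sum_congr rfl fun a _ => ?_
  rw [map_sum, smul_sum, ← sum_add_distrib]
  refine sum_congr rfl fun b _ => ?_
  rw [pderiv_Eu, map_add, pderiv_Eu, map_smul, smul_add, smul_add, smul_comm 2 (B a b), two_smul,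
    smul_add]
  abel

theorem eps_Eu (g : R) : constantCoeff (Eu g) = 0 := by
  rw [Eu_apply, map_sum]
  refine sum_eq_zero fun k _ => ?_
  rw [map_mul, constantCoeff_X, zero_mul]

theorem Del_pow_Eu (B : Matrix (Fin 4) (Fin 4) ℂ) (m : ℕ) (g : R) :
    (Del B ^ m) (Eu g) = Eu ((Del B ^ m) g) + (2 * m) • (Del B ^ m) g := by
  induction m with
  | zero => simp
  | succ m ih =>
    rw [pow_succ', Module.End.mul_apply, ih, map_add, Del_Eu, map_nsmul, Module.End.mul_apply,
      add_assoc, ← add_smul]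
    congr 2
    ring

theorem Del_pow_pderiv (B : Matrix (Fin 4) (Fin 4) ℂ) (m : ℕ) (i : Fin 4) (g : R) :
    (Del B ^ m) (pderiv i g) = pderiv i ((Del B ^ m) g) := by
  induction m with
  | zero => simp
  | succ m ih =>
    rw [pow_succ', Module.End.mul_apply, ih, Del_pderiv, Module.End.mul_apply]

/-- the linear forms -/
noncomputable def lf (A : Matrix (Fin 4) (Fin 4) ℂ) (i : Fin 4) : R := ∑ k, A i k • X k

theorem eps_lf (A : Matrix (Fin 4) (Fin 4) ℂ) (i : Fin 4) : constantCoeff (lf A i) = 0 := by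
  unfold lf
  rw [map_sum]
  refine sum_eq_zero fun k _ => ?_
  rw [smul_eq_C_mul, map_mul, constantCoeff_X, mul_zero]

theorem pderiv_lf (A : Matrix (Fin 4) (Fin 4) ℂ) (i b : Fin 4) :
    pderiv b (lf A i) = C (A i b) := by
  unfold lf
  rw [map_sum]
  have h1 : ∀ k, pderiv b (A i k • X k : R) = if k = b then C (A i k) else 0 := by
    intro k
    rw [Derivation.map_smul, pderiv_X]
    by_cases h : k = b
    · rw [h, if_pos rfl, Pi.single_eq_same, smul_eq_C_mul, mul_one]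
    · rw [if_neg h, Pi.single_eq_of_ne h, smul_zero]
  rw [sum_congr rfl fun k _ => h1 k, sum_ite_eq' univ b]
  simp

theorem Del_lf {A B : Matrix (Fin 4) (Fin 4) ℂ} (hA : ∀ i k, A i k = A k i) (hAB : A * B = 1)
    (hBA : B * A = 1) (i : Fin 4) (g : R) :
    Del B (lf A i * g) = lf A i * Del B g + 2 • pderiv i g := by
  rw [Del_apply, Del_apply]
  have h1 : ∀ a b, (B a b) • pderiv a (pderiv b (lf A i * g)) =
      (B a b * A i b) • pderiv a g + (B a b * A i a) • pderiv b g +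
        lf A i * ((B a b) • pderiv a (pderiv b g)) := by
    intro a b
    rw [pderiv_mul, map_add, pderiv_mul, pderiv_mul, pderiv_lf, pderiv_lf, pderiv_C]
    simp only [smul_eq_C_mul, C_mul]
    ring
  rw [sum_congr rfl fun a _ => sum_congr rfl fun b _ => h1 a b]
  simp only [sum_add_distrib, mul_sum]
  have h2 : ∑ a, ∑ b, (B a b * A i b) • pderiv a g = pderiv i g := by
    have h3 : ∀ a, ∑ b, (B a b * A i b) • pderiv a g = (if a = i then pderiv a g else 0) := by
      intro a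
      rw [← sum_smul]
      have h4 : ∑ b, B a b * A i b = (B * A) a i := by
        rw [Matrix.mul_apply]
        exact sum_congr rfl fun b _ => by rw [hA i b]
      rw [h4, hBA, Matrix.one_apply]
      by_cases h : a = i
      · rw [if_pos h, if_pos h, one_smul]
      · rw [if_neg h, if_neg h, zero_smul]
    rw [sum_congr rfl fun a _ => h3 a, sum_ite_eq' univ i]
    simp
  have h5 : ∑ a, ∑ b, (B a b * A i a) • pderiv b g = pderiv i g := by
    rw [sum_comm]
    have h3 : ∀ b, ∑ a, (B a b * A i a) • pderiv b g = (if b = i then pderiv b g else 0) := by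
      intro b
      rw [← sum_smul]
      have h4 : ∑ a, B a b * A i a = (A * B) i b := by
        rw [Matrix.mul_apply]
        exact sum_congr rfl fun a _ => by ring
      rw [h4, hAB, Matrix.one_apply]
      by_cases h : b = i
      · rw [if_pos h, if_pos h.symm, one_smul]
      · rw [if_neg h, if_neg (Ne.symm h), zero_smul]
    rw [sum_congr rfl fun a _ => h3 a, sum_ite_eq' univ i]
    simp
  rw [h2, h5, two_smul]
  abel

theorem Del_pow_lf {A B : Matrix (Fin 4) (Fin 4) ℂ} (hA : ∀ i k, A i k = A k i) (hAB : A * B = 1)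
    (hBA : B * A = 1) (i : Fin 4) (m : ℕ) (g : R) :
    (Del B ^ (m + 1)) (lf A i * g) =
      lf A i * (Del B ^ (m + 1)) g + (2 * (m + 1)) • (Del B ^ m) (pderiv i g) := by
  induction m with
  | zero => simp [Del_lf hA hAB hBA]
  | succ m ih =>
    rw [pow_succ', Module.End.mul_apply, ih, map_add, Del_lf hA hAB hBA, map_nsmul,
      ← Module.End.mul_apply, ← pow_succ', ← Module.End.mul_apply, ← pow_succ',
      Del_pow_pderiv, add_assoc, ← add_smul]
    congr 2
    ring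

theorem Hi_Del (B : Matrix (Fin 4) (Fin 4) ℂ) {a : ℕ} {g : R} (hg : g ∈ Hi (a + 2)) :
    Del B g ∈ Hi a := by
  rw [Del_apply]
  refine Ideal.sum_mem _ fun x _ => Ideal.sum_mem _ fun y _ => ?_
  rw [smul_eq_C_mul]
  exact Ideal.mul_mem_left _ _ (Hi_pderiv (Hi_pderiv hg _) _)

theorem Hi_Del_pow (B : Matrix (Fin 4) (Fin 4) ℂ) (m : ℕ) {a : ℕ} {g : R}
    (hg : g ∈ Hi (a + 2 * m)) : (Del B ^ m) g ∈ Hi a := by
  induction m generalizing a with
  | zero => simpa using hg
  | succ m ih =>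
    rw [pow_succ', Module.End.mul_apply]
    apply Hi_Del
    apply ih
    have : a + 2 + 2 * m = a + 2 * (m + 1) := by ring
    rw [this]
    exact hg

/-! ### the moments -/

/-- the normalising constants -/
noncomputable def cc : ℕ → ℂ
  | 0 => 1
  | n + 1 => cc n / (2 * (n + 2) * (n + 1))

theorem cc_succ (n : ℕ) : 2 * ((n : ℂ) + 2) * (n + 1) * cc (n + 1) = cc n := by
  rw [cc]
  have h1 : ((n : ℂ) + 2) ≠ 0 := by exact_mod_cast (show n + 2 ≠ 0 by omega)
  have h2 : ((n : ℂ) + 1) ≠ 0 := by exact_mod_cast (show n + 1 ≠ 0 by omega)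
  field_simp

/-- the linear functional `constantCoeff` -/
noncomputable def eps : R →ₗ[ℂ] ℂ where
  toFun g := constantCoeff g
  map_add' := map_add _
  map_smul' c g := by
    rw [smul_eq_C_mul, map_mul, constantCoeff_C, RingHom.id_apply, smul_eq_mul]

theorem eps_apply (g : R) : eps g = constantCoeff g := rfl

/-- the moments, with the index shifted by two -/
noncomputable def Mo (B : Matrix (Fin 4) (Fin 4) ℂ) : ℕ → R →ₗ[ℂ] ℂ
  | 0 => 0
  | 1 => 0
  | n + 2 => cc n • (eps ∘ₗ (Del B ^ n))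

theorem Mo_add_two (B : Matrix (Fin 4) (Fin 4) ℂ) (n : ℕ) (g : R) :
    Mo B (n + 2) g = cc n * constantCoeff ((Del B ^ n) g) := by
  unfold Mo
  rw [LinearMap.smul_apply, LinearMap.comp_apply, eps_apply, smul_eq_mul]

theorem Mo_zero (B : Matrix (Fin 4) (Fin 4) ℂ) (g : R) : Mo B 0 g = 0 := rfl

theorem Mo_one (B : Matrix (Fin 4) (Fin 4) ℂ) (g : R) : Mo B 1 g = 0 := rfl

/-- the moments vanish on polynomials of high order -/
theorem Mo_Hi (B : Matrix (Fin 4) (Fin 4) ℂ) (n : ℕ) {a : ℕ} {g : R} (hg : g ∈ Hi a)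
    (ha : 2 * n < a + 4) : Mo B n g = 0 := by
  match n with
  | 0 => rfl
  | 1 => rfl
  | n + 2 =>
    rw [Mo_add_two, eps_of_Hi, mul_zero]
    apply Hi_Del_pow
    exact Hi_mono (by omega) hg

theorem Mo_lf {A B : Matrix (Fin 4) (Fin 4) ℂ} (hA : ∀ i k, A i k = A k i) (hAB : A * B = 1)
    (hBA : B * A = 1) (i : Fin 4) (n : ℕ) (g : R) :
    (n : ℂ) * Mo B (n + 1) (lf A i * g) = Mo B n (pderiv i g) := by
  match n with
  | 0 => rw [Mo_zero]; simp
  | 1 =>
    rw [Mo_one, show (1 + 1 : ℕ) = 0 + 2 from rfl, Mo_add_two, pow_zero, Module.End.one_apply,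
      map_mul, eps_lf]
    simp
  | n + 2 =>
    rw [show n + 2 + 1 = (n + 1) + 2 by ring, Mo_add_two, Mo_add_two, Del_pow_lf hA hAB hBA, map_add,
      map_mul, eps_lf, zero_mul, zero_add, map_nsmul, ← cc_succ n, nsmul_eq_mul]
    push_cast
    ring

theorem Mo_Eu (B : Matrix (Fin 4) (Fin 4) ℂ) (n : ℕ) (g : R) :
    Mo B (n + 2) (Eu g) = 2 * n * Mo B (n + 2) g := by
  rw [Mo_add_two, Mo_add_two, Del_pow_Eu, map_add, eps_Eu, zero_add, map_nsmul, nsmul_eq_mul]
  push_cast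
  ring

/-- the quadratic form -/
noncomputable def qf (A : Matrix (Fin 4) (Fin 4) ℂ) : R := (1 / 2 : ℂ) • ∑ i, lf A i * X i

theorem eps_qf (A : Matrix (Fin 4) (Fin 4) ℂ) : constantCoeff (qf A) = 0 := by
  unfold qf
  rw [smul_eq_C_mul, map_mul, map_sum, sum_eq_zero, mul_zero]
  intro i _
  rw [map_mul, constantCoeff_X, mul_zero]

theorem Mo_qf {A B : Matrix (Fin 4) (Fin 4) ℂ} (hA : ∀ i k, A i k = A k i) (hAB : A * B = 1)
    (hBA : B * A = 1) (n : ℕ) (g : R) : Mo B (n + 1) (qf A * g) = Mo B n g := by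
  match n with
  | 0 => rw [Mo_zero, Mo_one]
  | 1 =>
    rw [Mo_one, show (1 + 1 : ℕ) = 0 + 2 from rfl, Mo_add_two, pow_zero, Module.End.one_apply,
      map_mul, eps_qf]
    simp
  | n + 2 =>
    have hn : ((n + 2 : ℕ) : ℂ) ≠ 0 := by exact_mod_cast (show n + 2 ≠ 0 by omega)
    apply mul_left_cancel₀ hn
    have e1 : qf A * g = (1 / 2 : ℂ) • ∑ i, lf A i * (X i * g) := by
      unfold qf
      rw [smul_mul_assoc, sum_mul]
      congr 1
      exact sum_congr rfl fun i _ => by ring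
    rw [e1, map_smul, map_sum, smul_eq_mul]
    have e2 : ∀ i : Fin 4, ((n + 2 : ℕ) : ℂ) * Mo B (n + 2 + 1) (lf A i * (X i * g)) =
        Mo B (n + 2) g + Mo B (n + 2) (X i * pderiv i g) := by
      intro i
      rw [Mo_lf hA hAB hBA, pderiv_mul, pderiv_X_self, one_mul, map_add]
    have e3 : ((n + 2 : ℕ) : ℂ) * (1 / 2 * ∑ i, Mo B (n + 2 + 1) (lf A i * (X i * g))) =
        1 / 2 * ∑ i, ((n + 2 : ℕ) : ℂ) * Mo B (n + 2 + 1) (lf A i * (X i * g)) := by
      rw [← mul_sum]; ring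
    have e4 : ∑ i : Fin 4, Mo B (n + 2) (X i * pderiv i g) = 2 * n * Mo B (n + 2) g := by
      rw [← map_sum, ← Eu_apply, Mo_Eu]
    rw [e3, sum_congr rfl fun i _ => e2 i, sum_add_distrib, e4]
    simp only [sum_const, card_univ, Fintype.card_fin, nsmul_eq_mul]
    push_cast
    ring

/-! ### the functionals -/

/-- the partial sums -/
noncomputable def T (B : Matrix (Fin 4) (Fin 4) ℂ) (h : R) (k J : ℕ) (g : R) : ℂ :=
  ∑ j ∈ range J, (-1) ^ j * ((k + j).choose k : ℂ) * Mo B (k + 1 + j) (g * h ^ j)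

theorem T_term {B : Matrix (Fin 4) (Fin 4) ℂ} {h : R} (hh : h ∈ Hi 3) {k j a : ℕ} {g : R}
    (hg : g ∈ Hi a) (hj : 2 * k ≤ j + a + 1) : Mo B (k + 1 + j) (g * h ^ j) = 0 :=
  Mo_Hi B _ (Hi_mul hg (Hi_pow hh j)) (by omega)

theorem T_stab {B : Matrix (Fin 4) (Fin 4) ℂ} {h : R} (hh : h ∈ Hi 3) (k : ℕ) (g : R) {J : ℕ}
    (hJ : 2 * k ≤ J) : T B h k J g = T B h k (2 * k) g := by
  unfold T
  symm
  refine sum_subset (range_subset_range.2 hJ) ?_
  intro j _ hj
  rw [mem_range, not_lt] at hj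
  rw [T_term hh (Hi_zero g) (by omega), mul_zero]

/-- the functional -/
noncomputable def La (B : Matrix (Fin 4) (Fin 4) ℂ) (h : R) (k : ℕ) : R →ₗ[ℂ] ℂ :=
  ∑ j ∈ range (2 * k), ((-1) ^ j * ((k + j).choose k : ℂ)) •
    (Mo B (k + 1 + j) ∘ₗ LinearMap.mulRight ℂ (h ^ j))

theorem La_apply (B : Matrix (Fin 4) (Fin 4) ℂ) (h : R) (k : ℕ) (g : R) :
    La B h k g = T B h k (2 * k) g := by
  unfold La T
  rw [LinearMap.sum_apply]
  refine sum_congr rfl fun j _ => ?_
  rw [LinearMap.smul_apply, LinearMap.comp_apply, LinearMap.mulRight_apply, smul_eq_mul]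

theorem shift_sum (a : ℕ → ℂ) (k J : ℕ) :
    ∑ j ∈ range J, (-1) ^ j * ((k + 1 + j).choose (k + 1) : ℂ) * (a j + a (j + 1)) =
    ∑ j ∈ range J, (-1) ^ j * ((k + j).choose k : ℂ) * a j -
      (-1) ^ J * ((k + J).choose (k + 1) : ℂ) * a J := by
  induction J with
  | zero => simp
  | succ J ih =>
    rw [sum_range_succ, ih, sum_range_succ]
    have e1 : (k + 1 + J).choose (k + 1) = (k + J).choose k + (k + J).choose (k + 1) := by
      rw [show k + 1 + J = (k + J) + 1 by ring, Nat.choose_succ_succ]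
    have e2 : (k + (J + 1)).choose (k + 1) = (k + J).choose k + (k + J).choose (k + 1) := by
      rw [show k + (J + 1) = (k + J) + 1 by ring, Nat.choose_succ_succ]
    rw [e1, e2]
    push_cast
    ring

theorem La_mul {A B : Matrix (Fin 4) (Fin 4) ℂ} (hA : ∀ i k, A i k = A k i) (hAB : A * B = 1)
    (hBA : B * A = 1) {h : R} (hh : h ∈ Hi 3) (k : ℕ) (g : R) :
    La B h (k + 1) (g * (qf A + h)) = La B h k g := by
  rw [La_apply, La_apply, ← T_stab hh k g (show 2 * k ≤ 2 * (k + 1) by omega)]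
  unfold T
  have e1 : ∀ j, Mo B (k + 1 + 1 + j) (g * (qf A + h) * h ^ j) =
      Mo B (k + 1 + j) (g * h ^ j) + Mo B (k + 1 + (j + 1)) (g * h ^ (j + 1)) := by
    intro j
    rw [show g * (qf A + h) * h ^ j = qf A * (g * h ^ j) + g * h ^ (j + 1) by ring, map_add,
      show k + 1 + 1 + j = (k + 1 + j) + 1 by ring, Mo_qf hA hAB hBA]
    rfl
  rw [sum_congr rfl fun j _ => by rw [e1 j]]
  rw [shift_sum (fun j => Mo B (k + 1 + j) (g * h ^ j)) k (2 * (k + 1)),
    T_term hh (Hi_zero g) (by omega), mul_zero, sub_zero]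

theorem shift_sum2 (e : ℕ → ℂ) (k J : ℕ) :
    ∑ j ∈ range (J + 1), (-1) ^ j * ((k + j).choose k : ℂ) * (j * e j) +
    ((k : ℂ) + 1) * ∑ j ∈ range J, (-1) ^ j * ((k + 1 + j).choose (k + 1) : ℂ) * e (j + 1) = 0 := by
  rw [sum_range_succ', mul_sum]
  simp only [Nat.cast_zero, zero_mul, mul_zero, add_zero]
  rw [← sum_add_distrib]
  refine sum_eq_zero fun j _ => ?_
  have h1 := Nat.choose_succ_right_eq (k + (j + 1)) k
  rw [show k + (j + 1) - k = j + 1 by omega] at h1
  have h2 : ((k + (j + 1)).choose (k + 1) : ℂ) * ((k : ℂ) + 1) =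
      ((k + (j + 1)).choose k : ℂ) * ((j : ℂ) + 1) := by exact_mod_cast h1
  rw [show k + 1 + j = k + (j + 1) by ring]
  push_cast
  rw [pow_succ]
  linear_combination (-1 : ℂ) ^ j * e (j + 1) * h2

theorem La_leib {A B : Matrix (Fin 4) (Fin 4) ℂ} (hA : ∀ i k, A i k = A k i) (hAB : A * B = 1)
    (hBA : B * A = 1) {h : R} (hh : h ∈ Hi 3) (k : ℕ) (i : Fin 4) (g : R) :
    La B h k (pderiv i g) = ((k : ℂ) + 1) * La B h (k + 1) (g * (lf A i + pderiv i h)) := by
  obtain ⟨J, hJ⟩ : ∃ J, J = 2 * (k + 1) := ⟨_, rfl⟩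
  rw [La_apply, La_apply, ← T_stab hh k _ (show 2 * k ≤ J + 1 by omega), ← hJ]
  unfold T
  have hdh : pderiv i h ∈ Hi 2 := Hi_pderiv hh i
  -- the linear form
  have e1 : ∀ j, ((k : ℂ) + 1) * ((-1) ^ j * ((k + 1 + j).choose (k + 1) : ℂ) *
      Mo B (k + 1 + 1 + j) (g * (lf A i + pderiv i h) * h ^ j)) =
      (-1) ^ j * ((k + j).choose k : ℂ) * Mo B (k + 1 + j) (pderiv i (g * h ^ j)) +
      ((k : ℂ) + 1) * ((-1) ^ j * ((k + 1 + j).choose (k + 1) : ℂ) *
      Mo B (k + 1 + (j + 1)) (g * pderiv i h * h ^ j)) := by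
    intro j
    have h1 : ((k + 1 + j : ℕ) : ℂ) * Mo B (k + 1 + j + 1) (lf A i * (g * h ^ j)) =
        Mo B (k + 1 + j) (pderiv i (g * h ^ j)) := Mo_lf hA hAB hBA i (k + 1 + j) (g * h ^ j)
    have h2 := Nat.add_one_mul_choose_eq (k + j) k
    have h3 : ((k : ℂ) + j + 1) * ((k + j).choose k : ℂ) =
        ((k + 1 + j).choose (k + 1) : ℂ) * ((k : ℂ) + 1) := by
      rw [show k + 1 + j = k + j + 1 by ring]
      exact_mod_cast h2
    rw [← h1, show g * (lf A i + pderiv i h) * h ^ j =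
      lf A i * (g * h ^ j) + g * pderiv i h * h ^ j by ring, map_add,
      show k + 1 + 1 + j = k + 1 + j + 1 by ring, show k + 1 + (j + 1) = k + 1 + j + 1 by ring]
    push_cast
    linear_combination (-(-1 : ℂ) ^ j * Mo B (k + 1 + j + 1) (lf A i * (g * h ^ j))) * h3
  rw [mul_sum, sum_congr rfl fun j _ => e1 j, sum_add_distrib]
  -- the derivative of the product
  have e2 : ∀ j, Mo B (k + 1 + j) (pderiv i (g * h ^ j)) =
      Mo B (k + 1 + j) (pderiv i g * h ^ j) +
      j * Mo B (k + 1 + j) (g * pderiv i h * h ^ (j - 1)) := by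
    intro j
    rw [pderiv_mul, pderiv_pow, map_add,
      show g * ((j : R) * h ^ (j - 1) * pderiv i h) =
        (j : R) * (g * pderiv i h * h ^ (j - 1)) by ring, ← nsmul_eq_mul, map_nsmul, nsmul_eq_mul]
  have e3 : ∑ j ∈ range J, (-1) ^ j * ((k + j).choose k : ℂ) *
      Mo B (k + 1 + j) (pderiv i (g * h ^ j)) =
      ∑ j ∈ range (J + 1), (-1) ^ j * ((k + j).choose k : ℂ) *
      Mo B (k + 1 + j) (pderiv i (g * h ^ j)) := by
    rw [sum_range_succ]
    have h1 : Mo B (k + 1 + J) (pderiv i (g * h ^ J)) = 0 := by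
      apply Mo_Hi B _ (a := 3 * J - 1)
      · apply Hi_pderiv
        have : 3 * J - 1 + 1 = 0 + 3 * J := by omega
        rw [this]
        exact Hi_mul (Hi_zero g) (Hi_pow hh J)
      · omega
    rw [h1, mul_zero, add_zero]
  rw [e3]
  simp only [e2, mul_add, sum_add_distrib]
  have e4 := shift_sum2 (fun j => Mo B (k + 1 + j) (g * pderiv i h * h ^ (j - 1))) k J
  simp only [Nat.add_sub_cancel] at e4
  rw [mul_sum] at e4
  linear_combination -e4

theorem constantCoeff_lf_pderiv (A : Matrix (Fin 4) (Fin 4) ℂ) (i k : Fin 4) :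
    constantCoeff (pderiv i (lf A k)) = A k i := by
  rw [pderiv_lf, constantCoeff_C]

theorem pderiv_qf {A : Matrix (Fin 4) (Fin 4) ℂ} (hA : ∀ i k, A i k = A k i) (i : Fin 4) :
    pderiv i (qf A) = lf A i := by
  unfold qf
  rw [Derivation.map_smul, map_sum]
  have h1 : ∀ k, pderiv i (lf A k * X k) = A i k • X k + (if k = i then lf A k else 0) := by
    intro k
    rw [pderiv_mul, pderiv_lf, pderiv_X, hA k i, smul_eq_C_mul]
    by_cases h : k = i
    · rw [h, if_pos rfl, Pi.single_eq_same, mul_one]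
    · rw [if_neg h, Pi.single_eq_of_ne h, mul_zero]
  rw [sum_congr rfl fun k _ => h1 k, sum_add_distrib, sum_ite_eq' univ i]
  have h2 : ∑ k, A i k • (X k : R) = lf A i := rfl
  rw [h2]
  simp only [mem_univ, if_true]
  rw [← two_smul ℂ, smul_smul]
  norm_num

theorem main (f : R) (hf0 : constantCoeff f = 0) (hf1 : ∀ i, constantCoeff (pderiv i f) = 0)
    (hdet : (Matrix.of fun i k => constantCoeff (pderiv i (pderiv k f))).det ≠ 0) :
    ∃ (L : ℕ → R →ₗ[ℂ] ℂ) (K : ℕ → ℕ),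
    (∀ k g, (∀ d ∈ g.support, K k ≤ ∑ i, d i) → L k g = 0) ∧
    (∀ k g, L (k + 1) (g * f) = L k g) ∧
    (∀ (k : ℕ) i g, L (k + 1) (f * pderiv i g + C ((-2 : ℂ) + 1 - k) * (g * pderiv i f)) = 0) ∧
    (∀ g, L 0 g = 0) ∧ L 1 1 ≠ 0 := by
  obtain ⟨A, hAd⟩ : ∃ A : Matrix (Fin 4) (Fin 4) ℂ,
    A = Matrix.of fun i k => constantCoeff (pderiv i (pderiv k f)) := ⟨_, rfl⟩
  rw [← hAd] at hdet
  have hAik : ∀ i k, A i k = constantCoeff (pderiv i (pderiv k f)) := fun i k => by
    rw [hAd]; rfl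
  have hA : ∀ i k, A i k = A k i := fun i k => by rw [hAik, hAik, pderiv_comm]
  have hunit : IsUnit A.det := isUnit_iff_ne_zero.2 hdet
  obtain ⟨B, hB⟩ : ∃ B, B = A⁻¹ := ⟨_, rfl⟩
  have hAB : A * B = 1 := by rw [hB]; exact Matrix.mul_nonsing_inv A hunit
  have hBA : B * A = 1 := by rw [hB]; exact Matrix.nonsing_inv_mul A hunit
  obtain ⟨h, hh⟩ : ∃ h, h = f - qf A := ⟨_, rfl⟩
  have hfh : f = qf A + h := by rw [hh]; ring
  have hdf : ∀ i, pderiv i f = lf A i + pderiv i h := by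
    intro i
    rw [hfh, map_add, pderiv_qf hA]
  have h3 : h ∈ Hi 3 := by
    refine Hi_of_pderiv ?_ fun i => Hi_of_pderiv ?_ fun k => Hi_of_pderiv ?_ fun l => Hi_zero _
    · rw [hh, map_sub, hf0, eps_qf, sub_zero]
    · rw [hh, map_sub, map_sub, hf1, pderiv_qf hA, eps_lf, sub_zero]
    · rw [hh, map_sub, map_sub, map_sub, pderiv_qf hA, constantCoeff_lf_pderiv, hAik, pderiv_comm k i,
        sub_self]
  refine ⟨La B h, fun k => 2 * k, ?_, ?_, ?_, ?_, ?_⟩
  · intro k g hg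
    have hg' : g ∈ Hi (2 * k) := by
      rw [mem_Hi]
      intro d hd
      by_contra hcon
      have h1 := hg d (mem_support_iff.2 hcon)
      rw [Finsupp.degree_eq_sum] at hd
      exact absurd h1 (not_le.2 hd)
    rw [La_apply]
    unfold T
    refine sum_eq_zero fun j _ => ?_
    rw [T_term h3 hg' (by omega), mul_zero]
  · intro k g
    rw [hfh]
    exact La_mul hA hAB hBA h3 k g
  · intro k i g
    rw [map_add, mul_comm f, hfh, La_mul hA hAB hBA h3, La_leib hA hAB hBA h3, ← hfh, ← hdf,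
      ← smul_eq_C_mul, map_smul, smul_eq_mul]
    ring
  · intro g
    rw [La_apply]
    rfl
  · rw [La_apply]
    unfold T
    rw [show 2 * 1 = 2 by norm_num, sum_range_succ, sum_range_one]
    have e1 : Mo B (1 + 1 + 1) (1 * h ^ 1) = 0 := by
      apply Mo_Hi B _ (a := 3)
      · rw [one_mul, pow_one]; exact h3
      · norm_num
    rw [e1]
    rw [show (1 + 1 + 0 : ℕ) = 0 + 2 from rfl, Mo_add_two]
    simp [cc]

end Pool.Agent.Y382.N4M2
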