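import Mathlib

/-!
# Translative covering of the unit square by rectangles (MP_6800d9_co)

Shelf argument: rectangles are sorted by decreasing height and put side by side in rows; a row is
closed as soon as its total width reaches `1`.
-/

namespace Pool.Agent.Y382.CoverRect

open Set

variable {ι : Type*}

/-- The rectangles with indices in `L`, translated by `v`, cover `[0,X] × [0,T]`. -/
def Covers (w h : ι → ℝ) (L : List ι) (v : ι → ℝ × ℝ) (X T : ℝ) : Prop :=
  ∀ x y : ℝ, 0 ≤ x → x ≤ X → 0 ≤ y → y ≤ T →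
    ∃ i ∈ L, (v i).1 ≤ x ∧ x ≤ (v i).1 + w i ∧ (v i).2 ≤ y ∧ y ≤ (v i).2 + h i

theorem row (w h : ι → ℝ) (T : ℝ) :
    ∀ L : List ι, L.Nodup → (∀ i ∈ L, T ≤ h i) → (∀ i ∈ L, 0 ≤ w i) → L ≠ [] →
      ∃ v : ι → ℝ × ℝ, Covers w h L v (L.map w).sum T := by
  classical
  intro L
  induction L with
  | nil => intro _ _ _ h; exact absurd rfl h
  | cons i L ih =>
    intro hnd hT hw _
    rw [List.nodup_cons] at hnd
    by_cases hL : L = []
    · subst hL
      refine ⟨fun _ => (0, 0), ?_⟩
      intro x y hx hxX hy hyT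
      refine ⟨i, by simp, ?_, ?_, ?_, ?_⟩
      · simpa using hx
      · simpa using hxX
      · simpa using hy
      · have := hT i (by simp)
        simp only [zero_add]
        linarith
    · obtain ⟨v, hv⟩ := ih hnd.2 (fun j hj => hT j (List.mem_cons_of_mem _ hj))
        (fun j hj => hw j (List.mem_cons_of_mem _ hj)) hL
      refine ⟨fun j => if j = i then (0, 0) else ((v j).1 + w i, (v j).2), ?_⟩
      intro x y hx hxX hy hyT
      by_cases hxi : x ≤ w i
      · refine ⟨i, by simp, ?_, ?_, ?_, ?_⟩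
        · simpa using hx
        · simpa using hxi
        · simpa using hy
        · have := hT i (by simp)
          simp only [if_true, zero_add]
          linarith
      · push Not at hxi
        have hX : ((i :: L).map w).sum = w i + (L.map w).sum := by simp
        obtain ⟨j, hj, h1, h2, h3, h4⟩ := hv (x - w i) y (by linarith) (by linarith) hy hyT
        have hji : j ≠ i := fun h => hnd.1 (h ▸ hj)
        refine ⟨j, List.mem_cons_of_mem _ hj, ?_, ?_, ?_, ?_⟩
        · simp only [hji, if_false]; linarith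
        · simp only [hji, if_false]; linarith
        · simpa [hji] using h3
        · simpa [hji] using h4

theorem split (w : ι → ℝ) : ∀ (L : List ι) (x : ℝ), 0 < x → x ≤ (L.map w).sum →
    ∃ P l L', L = P ++ l :: L' ∧ (P.map w).sum < x ∧ x ≤ (P.map w).sum + w l := by
  intro L
  induction L with
  | nil => intro x hx h; simp at h; linarith
  | cons i L ih =>
    intro x hx h
    by_cases hi : x ≤ w i
    · exact ⟨[], i, L, rfl, by simpa using hx, by simpa using hi⟩
    · push Not at hi
      have h' : ((i :: L).map w).sum = w i + (L.map w).sum := by simp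
      obtain ⟨P, l, L', h1, h2, h3⟩ := ih (x - w i) (by linarith) (by linarith)
      refine ⟨i :: P, l, L', by rw [h1]; rfl, ?_, ?_⟩
      · simp only [List.map_cons, List.sum_cons]; linarith
      · simp only [List.map_cons, List.sum_cons]; linarith

theorem area_le (w h : ι → ℝ) (H : ℝ) : ∀ L : List ι, (∀ i ∈ L, h i ≤ H) → (∀ i ∈ L, 0 ≤ w i) →
    (L.map (fun i => w i * h i)).sum ≤ H * (L.map w).sum := by
  intro L
  induction L with
  | nil => intro _ _; simp
  | cons i L ih =>
    intro hH hw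
    have h1 := ih (fun j hj => hH j (List.mem_cons_of_mem _ hj))
      (fun j hj => hw j (List.mem_cons_of_mem _ hj))
    have h2 : w i * h i ≤ w i * H :=
      mul_le_mul_of_nonneg_left (hH i (by simp)) (hw i (by simp))
    simp only [List.map_cons, List.sum_cons]
    linarith

/-- Main lemma: a list sorted by decreasing height with total area `≥ H + 2 T` covers the strip
`[0,1] × [0,T]`. -/
theorem strip (w h : ι → ℝ) : ∀ (m : ℕ) (L : List ι), L.length ≤ m → L.Nodup →
    L.Pairwise (fun a b => h b ≤ h a) → (∀ i ∈ L, 0 ≤ w i ∧ w i ≤ 1) → (∀ i ∈ L, 0 ≤ h i) →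
    ∀ H T : ℝ, 0 < T → 0 < H → (∀ i ∈ L, h i ≤ H) →
      H + 2 * T ≤ (L.map (fun i => w i * h i)).sum → ∃ v : ι → ℝ × ℝ, Covers w h L v 1 T := by
  classical
  intro m
  induction m with
  | zero =>
    intro L hL _ _ _ _ H T hT hH _ hA
    have : L = [] := List.eq_nil_of_length_eq_zero (by omega)
    subst this
    simp at hA
    linarith
  | succ m ih =>
    intro L hL hnd hs hw hh H T hT hH hle hA
    have hW : 1 ≤ (L.map w).sum := by
      by_contra hlt
      push Not at hlt
      have h1 := area_le w h H L hle (fun i hi => (hw i hi).1)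
      have h2 : H * (L.map w).sum ≤ H * 1 := mul_le_mul_of_nonneg_left hlt.le hH.le
      linarith
    obtain ⟨P, l, L', rfl, h1, h2⟩ := split w L 1 one_pos hW
    rw [List.pairwise_append] at hs
    obtain ⟨hs1, hs2, hs3⟩ := hs
    rw [List.pairwise_cons] at hs2
    have hPl : ∀ i ∈ P ++ [l], h l ≤ h i := by
      intro i hi
      rcases List.mem_append.mp hi with hi | hi
      · exact hs3 i hi l (by simp)
      · simp at hi; rw [hi]
    have hndPl : (P ++ [l]).Nodup := by
      have : (P ++ [l]).Sublist (P ++ l :: L') :=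
        List.Sublist.append_left (List.Sublist.cons_cons l (List.nil_sublist _)) P
      exact hnd.sublist this
    have hwl := hw l (by simp)
    have hhl := hh l (by simp)
    obtain ⟨v1, hv1⟩ := row w h (h l) (P ++ [l]) hndPl hPl
      (fun i hi => (hw i (by
        rcases List.mem_append.mp hi with hi | hi
        · simp [hi]
        · simp at hi; simp [hi])).1) (by simp)
    have hsum1 : ((P ++ [l]).map w).sum = (P.map w).sum + w l := by simp
    rw [hsum1] at hv1
    by_cases hTl : T ≤ h l
    · refine ⟨v1, ?_⟩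
      intro x y hx hx1 hy hyT
      obtain ⟨i, hi, h3⟩ := hv1 x y hx (by linarith) hy (by linarith)
      refine ⟨i, ?_, h3⟩
      rcases List.mem_append.mp hi with hi | hi
      · simp [hi]
      · simp at hi; simp [hi]
    · push Not at hTl
      -- the remaining list
      have hAP : (P.map (fun i => w i * h i)).sum ≤ H * (P.map w).sum :=
        area_le w h H P (fun i hi => hle i (by simp [hi])) (fun i hi => (hw i (by simp [hi])).1)
      have hAP' : H * (P.map w).sum ≤ H := by nlinarith
      have hAl : w l * h l ≤ h l := by nlinarith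
      have hsumA : ((P ++ l :: L').map (fun i => w i * h i)).sum =
          (P.map (fun i => w i * h i)).sum + (w l * h l + (L'.map (fun i => w i * h i)).sum) := by
        simp
      rw [hsumA] at hA
      have hA' : h l + 2 * (T - h l) ≤ (L'.map (fun i => w i * h i)).sum := by linarith
      have hlpos : 0 < h l := by
        rcases hhl.lt_or_eq with h0 | h0
        · exact h0
        · -- all heights in `L'` vanish, so the area is zero
          exfalso
          have hz := area_le w h 0 L' (fun i hi => by rw [h0]; exact hs2.1 i hi)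
            (fun i hi => (hw i (by simp [hi])).1)
          linarith
      have hlen : L'.length ≤ m := by
        simp only [List.length_append, List.length_cons] at hL
        omega
      have hnd' : L'.Nodup := by
        have : L'.Sublist (P ++ l :: L') :=
          (List.sublist_cons_self l L').trans (List.sublist_append_right P _)
        exact hnd.sublist this
      obtain ⟨v2, hv2⟩ := ih L' hlen hnd' hs2.2 (fun i hi => hw i (by simp [hi]))
        (fun i hi => hh i (by simp [hi])) (h l) (T - h l) (by linarith) hlpos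
        (fun i hi => hs2.1 i hi) hA'
      have hdisj : ∀ i ∈ L', i ∉ P ++ [l] := by
        intro i hi hi2
        rw [List.nodup_append] at hnd
        rcases List.mem_append.mp hi2 with h3 | h3
        · exact hnd.2.2 i h3 i (by simp [hi]) rfl
        · simp at h3
          subst h3
          exact (List.nodup_cons.mp hnd.2.1).1 hi
      refine ⟨fun i => if i ∈ L' then ((v2 i).1, (v2 i).2 + h l) else v1 i, ?_⟩
      intro x y hx hx1 hy hyT
      by_cases hyl : y ≤ h l
      · obtain ⟨i, hi, h3⟩ := hv1 x y hx (by linarith) hy hyl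
        have hiL : i ∉ L' := fun h => hdisj i h hi
        refine ⟨i, ?_, ?_⟩
        · rcases List.mem_append.mp hi with hi | hi
          · simp [hi]
          · simp at hi; simp [hi]
        · simpa [hiL] using h3
      · push Not at hyl
        obtain ⟨i, hi, h3, h4, h5, h6⟩ := hv2 x (y - h l) hx hx1 (by linarith) (by linarith)
        refine ⟨i, by simp [hi], ?_⟩
        simp only [hi, if_true]
        exact ⟨h3, h4, by linarith, by linarith⟩

/-- finite sets -/
theorem strip_finset (w h : ι → ℝ) (s : Finset ι) (hw : ∀ i ∈ s, 0 ≤ w i ∧ w i ≤ 1)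
    (hh : ∀ i ∈ s, 0 ≤ h i ∧ h i ≤ 1) (T : ℝ) (hT : 0 < T)
    (hA : 1 + 2 * T ≤ ∑ i ∈ s, w i * h i) :
    ∃ v : ι → ℝ × ℝ, ∀ x y : ℝ, 0 ≤ x → x ≤ 1 → 0 ≤ y → y ≤ T →
      ∃ i ∈ s, (v i).1 ≤ x ∧ x ≤ (v i).1 + w i ∧ (v i).2 ≤ y ∧ y ≤ (v i).2 + h i := by
  classical
  let r : ι → ι → Prop := fun a b => h b ≤ h a
  have : Std.Total r := ⟨fun a b => le_total (h b) (h a)⟩
  have : IsTrans ι r := ⟨fun a b c hab hbc => le_trans hbc hab⟩
  let L := s.toList.insertionSort r
  have hperm : L.Perm s.toList := List.perm_insertionSort r s.toList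
  have hmem : ∀ i, i ∈ L ↔ i ∈ s := fun i => by rw [hperm.mem_iff, Finset.mem_toList]
  have hnd : L.Nodup := hperm.nodup_iff.mpr s.nodup_toList
  have hsort : L.Pairwise r := List.pairwise_insertionSort r s.toList
  have hsum : (L.map (fun i => w i * h i)).sum = ∑ i ∈ s, w i * h i := by
    rw [(hperm.map _).sum_eq, Finset.sum_map_toList]
  obtain ⟨v, hv⟩ := strip w h L.length L le_rfl hnd hsort (fun i hi => hw i ((hmem i).1 hi))
    (fun i hi => (hh i ((hmem i).1 hi)).1) 1 T hT one_pos (fun i hi => (hh i ((hmem i).1 hi)).2)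
    (by rw [hsum]; exact hA)
  refine ⟨v, fun x y hx hx1 hy hyT => ?_⟩
  obtain ⟨i, hi, h3⟩ := hv x y hx hx1 hy hyT
  exact ⟨i, (hmem i).1 hi, h3⟩

/-- The case where some rectangle has width exactly `1`. -/
theorem cover_of_width (w h : ι → ℝ) (hw : ∀ i, 0 < w i ∧ w i ≤ 1) (hh : ∀ i, 0 < h i ∧ h i ≤ 1)
    (i₀ : ι) (h0 : w i₀ = 1) (hA : HasSum (fun i => w i * h i) 3) :
    ∃ v : ι → ℝ × ℝ, ∀ x y : ℝ, 0 ≤ x → x ≤ 1 → 0 ≤ y → y ≤ 1 →
      ∃ i, (v i).1 ≤ x ∧ x ≤ (v i).1 + w i ∧ (v i).2 ≤ y ∧ y ≤ (v i).2 + h i := by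
  classical
  rcases (hh i₀).2.lt_or_eq with hb | hb
  · -- a finite set of the other rectangles of area at least `3 - 2 b`
    have hpos : 0 < h i₀ := (hh i₀).1
    have hev : ∀ᶠ s : Finset ι in Filter.atTop, 3 - h i₀ < ∑ i ∈ s, w i * h i :=
      hA.eventually_const_lt (by linarith)
    obtain ⟨s0, hs0⟩ := Filter.eventually_atTop.mp hev
    have hs1 := hs0 (insert i₀ s0) (Finset.subset_insert _ _)
    set s := (insert i₀ s0).erase i₀ with hs
    have hsum : ∑ i ∈ insert i₀ s0, w i * h i = w i₀ * h i₀ + ∑ i ∈ s, w i * h i :=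
      (Finset.add_sum_erase _ (fun i => w i * h i) (Finset.mem_insert_self _ _)).symm
    rw [h0, one_mul] at hsum
    obtain ⟨v, hv⟩ := strip_finset w h s (fun i _ => ⟨(hw i).1.le, (hw i).2⟩)
      (fun i _ => ⟨(hh i).1.le, (hh i).2⟩) (1 - h i₀) (by linarith) (by linarith)
    refine ⟨fun i => if i = i₀ then (0, 1 - h i₀) else v i, ?_⟩
    intro x y hx hx1 hy hy1
    by_cases hyT : y ≤ 1 - h i₀
    · obtain ⟨i, hi, h3⟩ := hv x y hx hx1 hy hyT
      have hne : i ≠ i₀ := by
        rw [hs] at hi
        exact (Finset.mem_erase.mp hi).1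
      exact ⟨i, by simpa [hne] using h3⟩
    · push Not at hyT
      refine ⟨i₀, ?_⟩
      simp only [if_true, h0]
      exact ⟨hx, by linarith, by linarith, by linarith⟩
  · refine ⟨fun _ => (0, 0), fun x y hx hx1 hy hy1 => ⟨i₀, ?_⟩⟩
    simp only [h0, hb]
    exact ⟨hx, by linarith, hy, by linarith⟩

/-- Every family of axis-parallel rectangles with largest side length one and total area three
covers the unit square by translations. -/
theorem main (w h : ι → ℝ) (hw : ∀ i, 0 < w i ∧ w i ≤ 1) (hh : ∀ i, 0 < h i ∧ h i ≤ 1)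
    (h1 : ∃ i, w i = 1 ∨ h i = 1) (hA : HasSum (fun i => w i * h i) 3) :
    ∃ v : ι → ℝ × ℝ, Icc ((0 : ℝ), (0 : ℝ)) (1, 1) ⊆
      ⋃ i, (fun z => z + v i) '' Icc ((0 : ℝ), (0 : ℝ)) (w i, h i) := by
  obtain ⟨i₀, h0 | h0⟩ := h1
  · obtain ⟨v, hv⟩ := cover_of_width w h hw hh i₀ h0 hA
    refine ⟨v, ?_⟩
    rintro ⟨x, y⟩ ⟨⟨hx, hy⟩, ⟨hx1, hy1⟩⟩
    obtain ⟨i, h2, h3, h4, h5⟩ := hv x y hx hx1 hy hy1
    refine mem_iUnion.mpr ⟨i, (x - (v i).1, y - (v i).2), ⟨⟨?_, ?_⟩, ⟨?_, ?_⟩⟩, ?_⟩
    · simpa using h2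
    · simpa using h4
    · show x - (v i).1 ≤ w i
      linarith
    · show y - (v i).2 ≤ h i
      linarith
    · ext <;> simp
  · have hA' : HasSum (fun i => h i * w i) 3 := by simpa only [mul_comm] using hA
    obtain ⟨v, hv⟩ := cover_of_width h w hh hw i₀ h0 hA'
    refine ⟨fun i => ((v i).2, (v i).1), ?_⟩
    rintro ⟨x, y⟩ ⟨⟨hx, hy⟩, ⟨hx1, hy1⟩⟩
    obtain ⟨i, h2, h3, h4, h5⟩ := hv y x hy hy1 hx hx1
    refine mem_iUnion.mpr ⟨i, (x - (v i).2, y - (v i).1), ⟨⟨?_, ?_⟩, ⟨?_, ?_⟩⟩, ?_⟩
    · simpa using h4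
    · simpa using h2
    · show x - (v i).2 ≤ w i
      linarith
    · show y - (v i).1 ≤ h i
      linarith
    · ext <;> simp

end Pool.Agent.Y382.CoverRect
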