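import Mathlib

/-!
# The largest square in an odd-dimensional unit cube (MP_befaea_co)
-/

namespace Pool.Agent.Y382.SquareInCube

open Finset

/-- `Σ (2 α - α²) ≥ 3/4` if `α ∈ [0,1]` and `Σ α ≥ 1/2`. -/
theorem sum_g {ι : Type*} (s : Finset ι) (α : ι → ℝ) (h0 : ∀ i ∈ s, 0 ≤ α i) (h1 : ∀ i ∈ s, α i ≤ 1)
    (hs : 1 / 2 ≤ ∑ i ∈ s, α i) : 3 / 4 ≤ ∑ i ∈ s, (2 * α i - α i ^ 2) := by
  by_cases h : ∃ j ∈ s, 1 / 2 ≤ α j
  · obtain ⟨j, hj, hj2⟩ := h
    have h2 : (2 * α j - α j ^ 2) ≤ ∑ i ∈ s, (2 * α i - α i ^ 2) :=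
      Finset.single_le_sum (f := fun i => 2 * α i - α i ^ 2)
        (fun i hi => by nlinarith [h0 i hi, h1 i hi]) hj
    nlinarith [h1 j hj]
  · push Not at h
    have h2 : ∑ i ∈ s, (3 / 2) * α i ≤ ∑ i ∈ s, (2 * α i - α i ^ 2) :=
      Finset.sum_le_sum (fun i hi => by nlinarith [h0 i hi, h i hi])
    rw [← Finset.mul_sum] at h2
    linarith

/-- An odd number of reals in `[-1,1]` with sum zero: the distances to `±1` add up to at least
one. -/
theorem sum_dist {N : ℕ} (hN : Odd N) (p : Fin N → ℝ) (hp : ∀ i, |p i| ≤ 1) (h0 : ∑ i, p i = 0) :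
    1 ≤ ∑ i, (1 - |p i|) := by
  classical
  let b : Fin N → ℤ := fun i => if 0 ≤ p i then 0 else 1
  let σ : Fin N → ℤ := fun i => 1 - 2 * b i
  have hσ : ∀ i, |(σ i : ℝ) - p i| = 1 - |p i| := by
    intro i
    by_cases h : 0 ≤ p i
    · have h1 := hp i
      rw [abs_of_nonneg h] at h1 ⊢
      have h2 : (σ i : ℝ) = 1 := by simp [σ, b, h]
      rw [h2, abs_of_nonneg (by linarith)]
    · have h1 := hp i
      push Not at h
      rw [abs_of_neg h] at h1 ⊢
      have h2 : (σ i : ℝ) = -1 := by simp [σ, b, not_le.mpr h]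
      rw [h2, abs_of_nonpos (by linarith)]
      ring
  have hsumσ : ∑ i, σ i = (N : ℤ) - 2 * ∑ i, b i := by
    simp only [σ, Finset.sum_sub_distrib, ← Finset.mul_sum]
    simp
  have hne : ∑ i, σ i ≠ 0 := by
    rw [hsumσ]
    obtain ⟨k, hk⟩ := hN
    intro h
    omega
  have habs : (1 : ℝ) ≤ |((∑ i, σ i : ℤ) : ℝ)| := by
    have : (1 : ℤ) ≤ |∑ i, σ i| := Int.one_le_abs hne
    exact_mod_cast this
  calc (1 : ℝ) ≤ |((∑ i, σ i : ℤ) : ℝ)| := habs
    _ = |∑ i, ((σ i : ℝ) - p i)| := by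
        have h3 : ∑ i, ((σ i : ℝ) - p i) = ∑ i, (σ i : ℝ) - ∑ i, p i :=
          Finset.sum_sub_distrib (fun i => (σ i : ℝ)) p
        rw [h3, h0, sub_zero, Int.cast_sum]
    _ ≤ ∑ i, |(σ i : ℝ) - p i| := Finset.abs_sum_le_sum_abs _ _
    _ = ∑ i, (1 - |p i|) := Finset.sum_congr rfl (fun i _ => hσ i)

theorem core {N : ℕ} (hN : Odd N) (x y : Fin N → ℝ) (hx : ∀ i, |x i| ≤ 1) (hy : ∀ i, |y i| ≤ 1)
    (hxy : ∑ i, x i * y i = 0) (hn : ∑ i, x i ^ 2 = ∑ i, y i ^ 2) :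
    ∑ i, x i ^ 2 ≤ N - 3 / 4 := by
  have h1 := sum_dist hN (fun i => x i * y i) (fun i => by
    rw [abs_mul]
    exact mul_le_one₀ (hx i) (abs_nonneg _) (hy i)) hxy
  have h2 : ∑ i, (1 - |x i * y i|) ≤ ∑ i, ((1 - |x i|) + (1 - |y i|)) := by
    apply Finset.sum_le_sum
    intro i _
    rw [abs_mul]
    nlinarith [hx i, hy i, mul_nonneg (sub_nonneg.mpr (hx i)) (sub_nonneg.mpr (hy i))]
  rw [Finset.sum_add_distrib] at h2
  have key : ∀ z : Fin N → ℝ, (∀ i, |z i| ≤ 1) → 1 / 2 ≤ ∑ i, (1 - |z i|) →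
      ∑ i, z i ^ 2 ≤ N - 3 / 4 := by
    intro z hz hs
    have h3 := sum_g Finset.univ (fun i => 1 - |z i|) (fun i _ => by linarith [hz i])
      (fun i _ => by linarith [abs_nonneg (z i)]) hs
    have h4 : ∑ i, (2 * (1 - |z i|) - (1 - |z i|) ^ 2) = (N : ℝ) - ∑ i, z i ^ 2 := by
      have : ∀ i, 2 * (1 - |z i|) - (1 - |z i|) ^ 2 = 1 - z i ^ 2 := by
        intro i
        have := sq_abs (z i)
        nlinarith
      simp only [this, Finset.sum_sub_distrib]
      simp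
    linarith
  rcases le_total (1 / 2) (∑ i, (1 - |x i|)) with h | h
  · exact key x hx h
  · rw [hn]
    exact key y hy (by linarith)

/-- `s` is the edge length of an `m`-dimensional cube contained in `[0,1]^n`. -/
def Inscribed (m n : ℕ) (s : ℝ) : Prop :=
  0 ≤ s ∧ ∃ φ : EuclideanSpace ℝ (Fin m) → EuclideanSpace ℝ (Fin n), Isometry φ ∧
    ∀ x, (∀ i, 0 ≤ x i ∧ x i ≤ s) → ∀ j, 0 ≤ φ x j ∧ φ x j ≤ 1

theorem upper {N : ℕ} (hN : Odd N) (s : ℝ) (h : Inscribed 2 N s) : s ^ 2 ≤ (N : ℝ) / 2 - 3 / 8 := by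
  obtain ⟨hs, φ, hφ, hcube⟩ := h
  let g := hφ.affineIsometryOfStrictConvexSpace
  have hg : ⇑g = φ := hφ.coe_affineIsometryOfStrictConvexSpace
  let L := g.linearIsometry
  let e : ℝ → ℝ → EuclideanSpace ℝ (Fin 2) := fun a b => !₂[a, b]
  have hmap : ∀ p q : EuclideanSpace ℝ (Fin 2), φ (p + q) = L p + φ q := by
    intro p q
    rw [← hg]
    exact g.map_vadd q p
  set c := φ (e (s / 2) (s / 2)) with hc
  set a := L (e (s / 2) (s / 2)) with ha
  set b := L (e (s / 2) (-(s / 2))) with hb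
  have hadd : ∀ a b c d : ℝ, e a b + e c d = e (a + c) (b + d) := by
    intro a b c d
    ext i
    fin_cases i <;> simp [e]
  have hneg : ∀ a b : ℝ, -e a b = e (-a) (-b) := by
    intro a b
    ext i
    fin_cases i <;> simp [e]
  have hv : ∀ a b : ℝ, 0 ≤ a → a ≤ s → 0 ≤ b → b ≤ s →
      ∀ j, 0 ≤ φ (e a b) j ∧ φ (e a b) j ≤ 1 := by
    intro a b h1 h2 h3 h4
    apply hcube
    intro i
    fin_cases i
    · exact ⟨by simpa [e] using h1, by simpa [e] using h2⟩
    · exact ⟨by simpa [e] using h3, by simpa [e] using h4⟩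
  have v1 : φ (e s s) = a + c := by
    rw [ha, hc, ← hmap, hadd]; congr 1; ring_nf
  have v2 : φ (e 0 0) = -a + c := by
    rw [ha, hc, ← map_neg, ← hmap, hneg, hadd]; congr 1; ring_nf
  have v3 : φ (e s 0) = b + c := by
    rw [hb, hc, ← hmap, hadd]; congr 1; ring_nf
  have v4 : φ (e 0 s) = -b + c := by
    rw [hb, hc, ← map_neg, ← hmap, hneg, hadd]; congr 1; ring_nf
  have w1 := hv s s hs le_rfl hs le_rfl
  have w2 := hv 0 0 le_rfl hs le_rfl hs
  have w3 := hv s 0 hs le_rfl le_rfl hs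
  have w4 := hv 0 s le_rfl hs hs le_rfl
  rw [v1] at w1
  rw [v2] at w2
  rw [v3] at w3
  rw [v4] at w4
  have hA : ∀ j, |2 * a j| ≤ 1 := by
    intro j
    have h1 := w1 j
    have h2 := w2 j
    simp only [PiLp.add_apply, PiLp.neg_apply] at h1 h2
    rw [abs_le]
    constructor <;> linarith
  have hB : ∀ j, |2 * b j| ≤ 1 := by
    intro j
    have h1 := w3 j
    have h2 := w4 j
    simp only [PiLp.add_apply, PiLp.neg_apply] at h1 h2
    rw [abs_le]
    constructor <;> linarith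
  have hin : ∀ u v : EuclideanSpace ℝ (Fin N), inner ℝ u v = ∑ i, u i * v i := by
    intro u v
    rw [PiLp.inner_apply]
    apply Finset.sum_congr rfl
    intro i _
    simp [mul_comm]
  have hin2 : ∀ a b c d : ℝ, inner ℝ (e a b) (e c d) = a * c + b * d := by
    intro a b c d
    rw [PiLp.inner_apply]
    simp [e, Fin.sum_univ_two, mul_comm]
  have hab : ∑ i, a i * b i = 0 := by
    rw [← hin, ha, hb, L.inner_map_map, hin2]; ring
  have haa : ∑ i, a i * a i = s ^ 2 / 2 := by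
    rw [← hin, ha, L.inner_map_map, hin2]; ring
  have hbb : ∑ i, b i * b i = s ^ 2 / 2 := by
    rw [← hin, hb, L.inner_map_map, hin2]; ring
  have h4 : ∀ u v : EuclideanSpace ℝ (Fin N), ∑ i, (2 * u i) * (2 * v i) = 4 * ∑ i, u i * v i := by
    intro u v
    rw [Finset.mul_sum]
    exact Finset.sum_congr rfl (fun i _ => by ring)
  have h5 : ∀ u : EuclideanSpace ℝ (Fin N), ∑ i, (2 * u i) ^ 2 = 4 * ∑ i, u i * u i := by
    intro u
    rw [Finset.mul_sum]
    exact Finset.sum_congr rfl (fun i _ => by ring)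
  have hcore := core hN (fun i => 2 * a i) (fun i => 2 * b i) hA hB (by rw [h4, hab, mul_zero])
    (by rw [h5, h5, haa, hbb])
  rw [h5, haa] at hcore
  linarith

/-- The first half diagonal (times two). -/
noncomputable def X (k : ℕ) (j : ℕ) : ℝ := if j = 2 * k + 2 then 1 / 2 else 1

/-- The second half diagonal (times two). -/
noncomputable def Y (k : ℕ) (j : ℕ) : ℝ :=
  if j = 2 * k + 2 then 1 else if j = 2 * k + 1 then 1 / 2 else -(-1) ^ j

theorem X_abs (k j : ℕ) : |X k j| ≤ 1 := by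
  unfold X
  split_ifs <;> norm_num [abs_le]

theorem Y_abs (k j : ℕ) : |Y k j| ≤ 1 := by
  unfold Y
  split_ifs <;> norm_num [abs_le]

theorem alt (k : ℕ) : ∑ j ∈ Finset.range (2 * k + 1), (-(-1) ^ j : ℝ) = -1 := by
  induction k with
  | zero => simp
  | succ k ih =>
    have : 2 * (k + 1) + 1 = (2 * k + 1) + 1 + 1 := by ring
    rw [this, Finset.sum_range_succ, Finset.sum_range_succ, ih]
    have h1 : ((-1 : ℝ)) ^ (2 * k + 1) = -1 := Odd.neg_one_pow ⟨k, rfl⟩
    have h2 : ((-1 : ℝ)) ^ (2 * k + 1 + 1) = 1 := Even.neg_one_pow ⟨k + 1, by ring⟩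
    rw [h1, h2]; norm_num

theorem sumXY (k : ℕ) : ∑ j ∈ Finset.range (2 * k + 3), X k j * Y k j = 0 := by
  rw [Finset.sum_range_succ, Finset.sum_range_succ]
  have h : ∑ j ∈ Finset.range (2 * k + 1), X k j * Y k j =
      ∑ j ∈ Finset.range (2 * k + 1), (-(-1) ^ j : ℝ) := by
    apply Finset.sum_congr rfl
    intro j hj
    have := Finset.mem_range.mp hj
    simp only [X, Y]
    rw [if_neg (by omega), if_neg (by omega), if_neg (by omega), one_mul]
  have x1 : X k (2 * k + 1) = 1 := by simp [X]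
  have x2 : X k (2 * k + 2) = 1 / 2 := by simp [X]
  have y1 : Y k (2 * k + 1) = 1 / 2 := by simp [Y]
  have y2 : Y k (2 * k + 2) = 1 := by simp [Y]
  rw [h, alt, x1, x2, y1, y2]
  norm_num

theorem sumXX (k : ℕ) : ∑ j ∈ Finset.range (2 * k + 3), X k j * X k j = 2 * k + 2 + 1 / 4 := by
  rw [Finset.sum_range_succ, Finset.sum_range_succ]
  have h : ∑ j ∈ Finset.range (2 * k + 1), X k j * X k j =
      ∑ j ∈ Finset.range (2 * k + 1), (1 : ℝ) := by
    apply Finset.sum_congr rfl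
    intro j hj
    have := Finset.mem_range.mp hj
    simp only [X]
    rw [if_neg (by omega), one_mul]
  have x1 : X k (2 * k + 1) = 1 := by simp [X]
  have x2 : X k (2 * k + 2) = 1 / 2 := by simp [X]
  rw [h, x1, x2]
  simp
  ring

theorem sumYY (k : ℕ) : ∑ j ∈ Finset.range (2 * k + 3), Y k j * Y k j = 2 * k + 2 + 1 / 4 := by
  rw [Finset.sum_range_succ, Finset.sum_range_succ]
  have h : ∑ j ∈ Finset.range (2 * k + 1), Y k j * Y k j =
      ∑ j ∈ Finset.range (2 * k + 1), (1 : ℝ) := by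
    apply Finset.sum_congr rfl
    intro j hj
    have := Finset.mem_range.mp hj
    simp only [Y]
    rw [if_neg (by omega), if_neg (by omega), neg_mul_neg, ← mul_pow]
    norm_num
  have y1 : Y k (2 * k + 1) = 1 / 2 := by simp [Y]
  have y2 : Y k (2 * k + 2) = 1 := by simp [Y]
  rw [h, y1, y2]
  simp
  ring

theorem lower (k : ℕ) (s : ℝ) (hs : 0 < s) (hs2 : s ^ 2 = (k : ℝ) + 1 + 1 / 8) :
    Inscribed 2 (2 * k + 3) s := by
  have fin : ∀ f : ℕ → ℝ, ∑ i : Fin (2 * k + 3), f i = ∑ j ∈ Finset.range (2 * k + 3), f j :=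
    fun f => (Finset.sum_range f).symm
  let e₁ : EuclideanSpace ℝ (Fin (2 * k + 3)) := WithLp.toLp 2 (fun j => (Y k j - X k j) / (2 * s))
  let e₂ : EuclideanSpace ℝ (Fin (2 * k + 3)) := WithLp.toLp 2 (fun j => (-Y k j - X k j) / (2 * s))
  let p : EuclideanSpace ℝ (Fin (2 * k + 3)) := WithLp.toLp 2 (fun j => 1 / 2 + X k j / 2)
  have hn : ∀ a b : ℝ, ‖a • e₁ + b • e₂‖ ^ 2 = a ^ 2 + b ^ 2 := by
    intro a b
    rw [EuclideanSpace.norm_sq_eq]
    have h1 : ∀ j : Fin (2 * k + 3), ‖(a • e₁ + b • e₂) j‖ ^ 2 =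
        (a - b) ^ 2 / (4 * s ^ 2) * (Y k j * Y k j) + (a + b) ^ 2 / (4 * s ^ 2) * (X k j * X k j)
          - 2 * (a - b) * (a + b) / (4 * s ^ 2) * (X k j * Y k j) := by
      intro j
      rw [Real.norm_eq_abs, sq_abs]
      simp only [PiLp.add_apply, PiLp.smul_apply, smul_eq_mul, e₁, e₂]
      field_simp
      ring
    simp only [h1]
    rw [Finset.sum_sub_distrib, Finset.sum_add_distrib, ← Finset.mul_sum, ← Finset.mul_sum,
      ← Finset.mul_sum, fin (fun j => Y k j * Y k j), fin (fun j => X k j * X k j),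
      fin (fun j => X k j * Y k j), sumXY, sumXX, sumYY]
    have : (2 * (k : ℝ) + 2 + 1 / 4) = 2 * s ^ 2 := by rw [hs2]; ring
    rw [this]
    field_simp
    ring
  refine ⟨hs.le, fun z => p + (z 0 • e₁ + z 1 • e₂), ?_, ?_⟩
  · apply Isometry.of_dist_eq
    intro z w
    rw [dist_eq_norm, dist_eq_norm]
    have h1 : p + (z 0 • e₁ + z 1 • e₂) - (p + (w 0 • e₁ + w 1 • e₂)) =
        (z 0 - w 0) • e₁ + (z 1 - w 1) • e₂ := by
      module
    rw [h1, ← Real.sqrt_sq (norm_nonneg ((z 0 - w 0) • e₁ + (z 1 - w 1) • e₂)), hn,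
      EuclideanSpace.norm_eq, Fin.sum_univ_two]
    simp
  · intro z hz j
    obtain ⟨h1, h2⟩ := hz 0
    obtain ⟨h3, h4⟩ := hz 1
    have hX := abs_le.mp (X_abs k j)
    have hY := abs_le.mp (Y_abs k j)
    have hval : (p + (z 0 • e₁ + z 1 • e₂)) j =
        1 / 2 + (1 - z 0 / s - z 1 / s) * (X k j / 2) + (z 0 / s - z 1 / s) * (Y k j / 2) := by
      simp only [PiLp.add_apply, PiLp.smul_apply, smul_eq_mul, e₁, e₂, p]
      field_simp
      ring
    rw [hval]
    have hu0 : 0 ≤ z 0 / s := by positivity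
    have hu1 : z 0 / s ≤ 1 := by rw [div_le_one hs]; exact h2
    have hv0 : 0 ≤ z 1 / s := by positivity
    have hv1 : z 1 / s ≤ 1 := by rw [div_le_one hs]; exact h4
    generalize z 0 / s = u at *
    generalize z 1 / s = v at *
    generalize X k j = x at *
    generalize Y k j = y at *
    obtain ⟨hx1, hx2⟩ := hX
    obtain ⟨hy1, hy2⟩ := hY
    -- the value is bilinear in `(u,v)` with values `(1 ± x)/2`, `(1 ± y)/2` at the corners
    have e : 1 / 2 + (1 - u - v) * (x / 2) + (u - v) * (y / 2) =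
        ((1 - u) * (1 - v) * (1 + x) + u * (1 - v) * (1 + y) + (1 - u) * v * (1 - y)
          + u * v * (1 - x)) / 2 := by ring
    have a1 : 0 ≤ (1 - u) * (1 - v) := mul_nonneg (by linarith) (by linarith)
    have a2 : 0 ≤ u * (1 - v) := mul_nonneg (by linarith) (by linarith)
    have a3 : 0 ≤ (1 - u) * v := mul_nonneg (by linarith) (by linarith)
    have a4 : 0 ≤ u * v := mul_nonneg (by linarith) (by linarith)
    rw [e]
    constructor
    · have b1 := mul_nonneg a1 (by linarith : 0 ≤ 1 + x)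
      have b2 := mul_nonneg a2 (by linarith : 0 ≤ 1 + y)
      have b3 := mul_nonneg a3 (by linarith : 0 ≤ 1 - y)
      have b4 := mul_nonneg a4 (by linarith : 0 ≤ 1 - x)
      linarith
    · have b1 := mul_nonneg a1 (by linarith : 0 ≤ 1 - x)
      have b2 := mul_nonneg a2 (by linarith : 0 ≤ 1 - y)
      have b3 := mul_nonneg a3 (by linarith : 0 ≤ 1 + y)
      have b4 := mul_nonneg a4 (by linarith : 0 ≤ 1 + x)
      nlinarith

/-- The largest edge of a square in `[0,1]^(2n+1)` is `√((8n+1)/8)`. -/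
theorem main (n : ℕ) (hn : 1 ≤ n) :
    IsGreatest {s : ℝ | Inscribed 2 (2 * n + 1) s} (√((8 * n + 1) / 8)) := by
  obtain ⟨k, rfl⟩ : ∃ k, n = k + 1 := ⟨n - 1, by omega⟩
  have hpos : (0 : ℝ) < (8 * ((k + 1 : ℕ) : ℝ) + 1) / 8 := by positivity
  constructor
  · have : 2 * (k + 1) + 1 = 2 * k + 3 := by ring
    show Inscribed 2 (2 * (k + 1) + 1) _
    rw [this]
    apply lower k _ (Real.sqrt_pos.mpr hpos)
    rw [Real.sq_sqrt hpos.le]
    push_cast
    ring
  · intro s hs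
    have h := upper (N := 2 * (k + 1) + 1) ⟨k + 1, by ring⟩ s hs
    apply Real.le_sqrt_of_sq_le
    push_cast at h ⊢
    linarith

end Pool.Agent.Y382.SquareInCube
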